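import Pool.Agent.H240.BR.Def

/-!
# BR-1: weak eigenfunctions in the sense of the covering domain and in the sense of the charts
-/

set_option autoImplicit false
set_option linter.unusedSectionVars false

open Set Filter Topology MeasureTheory
open scoped ContDiff ComplexConjugate Real

noncomputable section

namespace Pool.Agent.H327.BR

open Pool.Agent.Y262.EG Pool.Agent.Y262.QE Pool.Agent.H240.BR

lemma lin_re_im (L : ℂ →L[ℝ] ℝ) (c : ℂ) : L c = c.re * L 1 + c.im * L Complex.I := by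
  have h : c = c.re • (1 : ℂ) + c.im • Complex.I := by
    apply Complex.ext <;> simp
  conv_lhs => rw [h]
  rw [map_add, map_smul, map_smul, smul_eq_mul, smul_eq_mul]

lemma quad (L K : ℂ →L[ℝ] ℝ) (c : ℂ) :
    L (c * 1) * K (c * 1) + L (c * Complex.I) * K (c * Complex.I) =
      ‖c‖ ^ 2 * (L 1 * K 1 + L Complex.I * K Complex.I) := by
  rw [lin_re_im L (c * 1), lin_re_im K (c * 1), lin_re_im L (c * Complex.I),
    lin_re_im K (c * Complex.I), Complex.sq_norm, Complex.normSq_apply]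
  simp only [mul_one, Complex.mul_re, Complex.mul_im, Complex.I_re, Complex.I_im, mul_zero,
    zero_sub, add_zero]
  ring

lemma fd_comp {g : ℂ → ℝ} {b : ℂ → ℂ} {z : ℂ} (hg : DifferentiableAt ℝ g (b z))
    (hb : DifferentiableAt ℂ b z) (v : ℂ) :
    fderiv ℝ (fun w => g (b w)) z v = fderiv ℝ g (b z) (deriv b z * v) := by
  have h1 : HasFDerivAt b ((fderiv ℂ b z).restrictScalars ℝ) z := hb.hasFDerivAt.restrictScalars ℝ
  have h2 := (hg.hasFDerivAt.comp z h1).fderiv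
  have h3 : fderiv ℝ (fun w => g (b w)) z = (fderiv ℝ g (b z)).comp
      ((fderiv ℂ b z).restrictScalars ℝ) := h2
  rw [h3, ContinuousLinearMap.comp_apply, ContinuousLinearMap.coe_restrictScalars',
    fderiv_eq_smul_deriv, smul_eq_mul, mul_comm v]

/-- gradients after composition with a holomorphic function -/
lemma grad_comp {g h : ℂ → ℝ} {b : ℂ → ℂ} {z : ℂ} (hg : DifferentiableAt ℝ g (b z))
    (hh : DifferentiableAt ℝ h (b z)) (hb : DifferentiableAt ℂ b z) :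
    fderiv ℝ (fun w => g (b w)) z 1 * fderiv ℝ (fun w => h (b w)) z 1 +
      fderiv ℝ (fun w => g (b w)) z Complex.I * fderiv ℝ (fun w => h (b w)) z Complex.I =
    ‖deriv b z‖ ^ 2 * (fderiv ℝ g (b z) 1 * fderiv ℝ h (b z) 1 +
      fderiv ℝ g (b z) Complex.I * fderiv ℝ h (b z) Complex.I) := by
  rw [fd_comp hg hb, fd_comp hg hb, fd_comp hh hb, fd_comp hh hb, quad]

lemma orth {a b c d R : ℝ} (h1 : R * (a ^ 2 + b ^ 2) = 1) (h2 : R * (c ^ 2 + d ^ 2) = 1)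
    (h3 : a * c + b * d = 0) :
    R * (a ^ 2 + c ^ 2) = 1 ∧ R * (b ^ 2 + d ^ 2) = 1 ∧ a * b + c * d = 0 := by
  have hR : R ≠ 0 := by
    rintro rfl
    norm_num at h1
  have he : a ^ 2 + b ^ 2 = c ^ 2 + d ^ 2 := mul_left_cancel₀ hR (h1.trans h2.symm)
  have hp : a ^ 2 + b ^ 2 ≠ 0 := by
    intro h
    rw [h, mul_zero] at h1
    exact zero_ne_one h1
  have hc : c ^ 2 = b ^ 2 := by
    apply mul_left_cancel₀ hp
    have : a * c = -(b * d) := by linarith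
    have h4 : (a * c) ^ 2 = (b * d) ^ 2 := by rw [this]; ring
    nlinarith
  have hd : d ^ 2 = a ^ 2 := by linarith
  refine ⟨by rw [hc]; exact h1, by rw [hd, add_comm]; exact h1, ?_⟩
  apply mul_left_cancel₀ hp
  have h5 : a * (a * b + c * d) = 0 := by
    have : a * (a * b + c * d) = a ^ 2 * b + (a * c) * d := by ring
    rw [this, show a * c = -(b * d) by linarith]
    have : a ^ 2 * b + -(b * d) * d = b * (a ^ 2 - d ^ 2) := by ring
    rw [this, hd]; ring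
  have h6 : b * (a * b + c * d) = 0 := by
    have : b * (a * b + c * d) = b ^ 2 * a + (b * d) * c := by ring
    rw [this, show b * d = -(a * c) by linarith]
    have : b ^ 2 * a + -(a * c) * c = a * (b ^ 2 - c ^ 2) := by ring
    rw [this, hc]; ring
  have : (a ^ 2 + b ^ 2) * (a * b + c * d) = a * (a * (a * b + c * d)) + b * (b * (a * b + c * d)) := by
    ring
  rw [this, h5, h6]; ring

lemma inner_grd {A : ℂ →L[ℝ] ℂ} {ρ : ℝ} (hdet : A.det ≠ 0)
    (hA : ∀ v, ‖A v‖ = ρ * ‖v‖) (P Q : ℂ →L[ℝ] ℝ) :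
    inner ℝ (grd A P) (grd A Q) = (ρ ^ 2)⁻¹ * (P 1 * Q 1 + P Complex.I * Q Complex.I) := by
  obtain ⟨e, he⟩ : ∃ e : ℂ ≃L[ℝ] ℂ, (e : ℂ →L[ℝ] ℂ) = A :=
    ⟨A.toContinuousLinearEquivOfDetNeZero hdet, A.coe_toContinuousLinearEquivOfDetNeZero hdet⟩
  have hinv : ∀ w, A (A.inverse w) = w := by
    intro w
    rw [← he, ContinuousLinearMap.inverse_equiv]
    exact e.apply_symm_apply w
  obtain ⟨a, ha⟩ : ∃ a : ℂ, a = A.inverse 1 := ⟨_, rfl⟩
  obtain ⟨c, hc⟩ : ∃ c : ℂ, c = A.inverse Complex.I := ⟨_, rfl⟩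
  have sq : ∀ v : ℂ, ‖A v‖ ^ 2 = ρ ^ 2 * (v.re ^ 2 + v.im ^ 2) := by
    intro v
    rw [hA, mul_pow, Complex.sq_norm, Complex.normSq_apply]
    ring
  have h1 : ρ ^ 2 * (a.re ^ 2 + a.im ^ 2) = 1 := by
    rw [← sq, ha, hinv]; simp
  have h2 : ρ ^ 2 * (c.re ^ 2 + c.im ^ 2) = 1 := by
    rw [← sq, hc, hinv]; simp
  have h4 : ρ ^ 2 * ((a + c).re ^ 2 + (a + c).im ^ 2) = 2 := by
    rw [← sq, map_add, ha, hc, hinv, hinv, Complex.sq_norm, Complex.normSq_apply]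
    simp
    norm_num
  have hρ : ρ ^ 2 ≠ 0 := by
    intro h
    rw [h, zero_mul] at h1
    exact zero_ne_one h1
  have h3 : a.re * c.re + a.im * c.im = 0 := by
    apply mul_left_cancel₀ hρ
    simp only [Complex.add_re, Complex.add_im] at h4
    nlinarith
  obtain ⟨k1, k2, k3⟩ := orth h1 h2 h3
  have k1' : a.re ^ 2 + c.re ^ 2 = (ρ ^ 2)⁻¹ := eq_inv_of_mul_eq_one_right k1
  have k2' : a.im ^ 2 + c.im ^ 2 = (ρ ^ 2)⁻¹ := eq_inv_of_mul_eq_one_right k2
  have hin : inner ℝ (grd A P) (grd A Q) = P a * Q a + P c * Q c := by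
    rw [Complex.inner]
    simp only [grd, ← ha, ← hc, Complex.mul_re, Complex.conj_re, Complex.conj_im]
    ring
  rw [hin, lin_re_im P a, lin_re_im Q a, lin_re_im P c, lin_re_im Q c]
  have : (a.re * P 1 + a.im * P Complex.I) * (a.re * Q 1 + a.im * Q Complex.I) +
      (c.re * P 1 + c.im * P Complex.I) * (c.re * Q 1 + c.im * Q Complex.I) =
      (a.re ^ 2 + c.re ^ 2) * (P 1 * Q 1) + (a.im ^ 2 + c.im ^ 2) * (P Complex.I * Q Complex.I) +
      (a.re * a.im + c.re * c.im) * (P 1 * Q Complex.I + P Complex.I * Q 1) := by ring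
  rw [this, k1', k2', k3]
  ring

section

variable {M P : Type} [MetricSpace M] [CompactSpace M] [MetricSpace P] [CompactSpace P]
  [MeasurableSpace M] [BorelSpace M] {Ω : Set ℂ} {φ Φ : ℂ → ℝ} {pr : ℂ → M} {q : Y → P}
  {D : Data M} {μ : Measure M}

lemma c1_pr (hU : IsUT Ω φ pr q) (hD : D.IsSurf μ) (hC : Compat D Ω Φ pr) {F : M → ℝ}
    (hF : D.C1 F) : ContDiffOn ℝ 1 (fun z => F (pr z)) Ω := by
  intro z0 hz0
  apply ContDiffAt.contDiffWithinAt
  obtain ⟨i, hi⟩ := hD.cover (pr z0)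
  obtain ⟨y0, hy0⟩ : ∃ y, y = D.φ i (pr z0) := ⟨_, rfl⟩
  have hyT : y0 ∈ D.T i := by rw [hy0]; exact mem_image_of_mem _ hi
  obtain ⟨b, hb, hb'⟩ := hC i
  obtain ⟨h1, h2, h3, -⟩ := hb' y0 hyT
  have hpr : pr z0 = pr (b y0) := by
    rw [← h2, hy0, hD.left i _ hi]
  obtain ⟨θ', r, γ, hr, hball, hγ, hγ0, hγ1, -⟩ := hU.deck z0 hz0 (b y0) h1 hpr 0
  simp only at hr hball hγ hγ0 hγ1
  have hTn : D.T i ∈ 𝓝 y0 := (hD.openT i).mem_nhds hyT
  have hbn : ContDiffAt ℂ 1 b y0 := (hb.contDiffOn (hD.openT i)).contDiffAt hTn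
  have hbd : HasStrictDerivAt b (deriv b y0) y0 :=
    hbn.hasStrictDerivAt (by norm_num)
  have hbe : HasFDerivAt b (((ContinuousLinearEquiv.unitsEquivAut ℂ) (Units.mk0 _ h3) : ℂ ≃L[ℂ] ℂ) : ℂ →L[ℂ] ℂ) y0 := by
    have := hbd.hasStrictFDerivAt_equiv h3
    exact this.hasFDerivAt
  obtain ⟨β, hβ⟩ : ∃ β, β = hbn.localInverse hbe (by norm_num) := ⟨_, rfl⟩
  have hβc : ContDiffAt ℂ 1 β (b y0) := by
    rw [hβ]; exact hbn.to_localInverse hbe (by norm_num)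
  have hβ0 : β (b y0) = y0 := by
    rw [hβ]; exact hbn.localInverse_apply_image hbe (by norm_num)
  have hβr : ∀ᶠ w in 𝓝 (b y0), b (β w) = w := by
    rw [hβ]
    exact (hbn.hasStrictFDerivAt' hbe (by norm_num)).eventually_right_inverse
  have hγc : ContDiffAt ℂ 1 γ z0 :=
    (hγ.contDiffOn Metric.isOpen_ball).contDiffAt (Metric.ball_mem_nhds _ hr)
  have hFc : ContDiffAt ℝ 1 (fun z => F (D.ψ i z)) y0 := (hF i).contDiffAt hTn
  have hcomp : ContDiffAt ℝ 1 (fun z => F (D.ψ i (β (γ z)))) z0 := by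
    have e1 : ContDiffAt ℝ 1 (fun z => β (γ z)) z0 := by
      have e2 : ContDiffAt ℂ 1 β (γ z0) := by rw [hγ0]; exact hβc
      exact (e2.restrict_scalars ℝ).comp z0 (hγc.restrict_scalars ℝ)
    have e3 : ContDiffAt ℝ 1 (fun z => F (D.ψ i z)) ((fun z => β (γ z)) z0) := by
      simp only [hγ0, hβ0]; exact hFc
    exact ContDiffAt.comp (g := fun z => F (D.ψ i z)) (f := fun z => β (γ z)) z0 e3 e1
  refine hcomp.congr_of_eventuallyEq ?_
  have hcont : ContinuousAt γ z0 := hγc.continuousAt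
  have n1 : ∀ᶠ z in 𝓝 z0, b (β (γ z)) = γ z := by
    have : Tendsto γ (𝓝 z0) (𝓝 (b y0)) := by
      have h := hcont.tendsto
      rwa [hγ0] at h
    exact this.eventually hβr
  have n2 : ∀ᶠ z in 𝓝 z0, β (γ z) ∈ D.T i := by
    have h : ContinuousAt (fun z => β (γ z)) z0 := by
      have e2 : ContinuousAt β (γ z0) := by rw [hγ0]; exact hβc.continuousAt
      exact e2.comp hcont
    apply h.tendsto.eventually
    simp only [hγ0, hβ0]
    exact hTn
  filter_upwards [n1, n2, Metric.ball_mem_nhds z0 hr] with z k1 k2 k3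
  have k4 := (hb' _ k2).2.1
  rw [k4, k1, (hγ1 z k3).2.1]

lemma pr_c1 (hD : D.IsSurf μ) (hC : Compat D Ω Φ pr) {F : M → ℝ}
    (hF : ContDiffOn ℝ 1 (fun z => F (pr z)) Ω) : D.C1 F := by
  intro i
  obtain ⟨b, hb, hb'⟩ := hC i
  have h1 : ContDiffOn ℝ 1 b (D.T i) := (hb.contDiffOn (hD.openT i)).restrict_scalars ℝ
  have h2 : ContDiffOn ℝ 1 (fun z => F (pr (b z))) (D.T i) :=
    hF.comp h1 fun z hz => (hb' z hz).1
  exact h2.congr fun z hz => by simp only [(hb' z hz).2.1]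

/-- the scalar product of the gradients at `z` -/
def Ed (Φ : ℂ → ℝ) (pr : ℂ → M) (F G : M → ℝ) (z : ℂ) : ℝ :=
  Real.exp (-2 * Φ z) *
      (px (fun z => F (pr z)) z * px (fun z => G (pr z)) z +
        py (fun z => F (pr z)) z * py (fun z => G (pr z)) z)

lemma dat (hU : IsUT Ω φ pr q) {F : M → ℝ} (hF : ContDiffOn ℝ 1 (fun z => F (pr z)) Ω) {z : ℂ}
    (hz : z ∈ Ω) : DifferentiableAt ℝ (fun z => F (pr z)) z :=
  (hF.contDiffAt (hU.opn.mem_nhds hz)).differentiableAt (by norm_num)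

lemma Ed_inv (hU : IsUT Ω φ pr q) (f : M → ℝ) {F G : M → ℝ}
    (hF : ContDiffOn ℝ 1 (fun z => F (pr z)) Ω) (hG : ContDiffOn ℝ 1 (fun z => G (pr z)) Ω)
    {z w : ℂ} (hz : z ∈ Ω) (hw : w ∈ Ω) (h : pr z = pr w) :
    Ed (fun z => φ z + f (pr z)) pr F G z = Ed (fun z => φ z + f (pr z)) pr F G w := by
  obtain ⟨θ', r, γ, hr, hball, hγ, hγ0, hγ1, -⟩ := hU.deck z hz w hw h 0
  simp only at hr hball hγ hγ0 hγ1
  have hzb : z ∈ Metric.ball z r := Metric.mem_ball_self hr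
  have hγd : DifferentiableAt ℂ γ z := hγ.differentiableAt (Metric.ball_mem_nhds _ hr)
  obtain ⟨-, -, g1, g2⟩ := hγ1 z hzb
  rw [hγ0] at g2
  have hn : 0 < ‖deriv γ z‖ := norm_pos_iff.2 g1
  have key : ∀ K : M → ℝ, fderiv ℝ (fun z => K (pr z)) z = fderiv ℝ (fun ζ => K (pr (γ ζ))) z := by
    intro K
    apply Filter.EventuallyEq.fderiv_eq
    filter_upwards [Metric.ball_mem_nhds z hr] with ζ hζ
    rw [(hγ1 ζ hζ).2.1]
  have hFd : DifferentiableAt ℝ (fun z => F (pr z)) (γ z) := by rw [hγ0]; exact dat hU hF hw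
  have hGd : DifferentiableAt ℝ (fun z => G (pr z)) (γ z) := by rw [hγ0]; exact dat hU hG hw
  have hgc := grad_comp hFd hGd hγd
  have he : Real.exp (-2 * (φ z + f (pr z))) * ‖deriv γ z‖ ^ 2 =
      Real.exp (-2 * (φ w + f (pr w))) := by
    have h5 : ‖deriv γ z‖ ^ 2 = Real.exp (2 * Real.log ‖deriv γ z‖) := by
      rw [two_mul, Real.exp_add, Real.exp_log hn, sq]
    rw [h5, ← Real.exp_add, ← g2, h]
    congr 1
    ring
  unfold Ed px py
  rw [key F, key G, hgc, hγ0, ← mul_assoc, he]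

lemma dot_eq (hU : IsUT Ω φ pr q) (f : M → ℝ) {F G : M → ℝ}
    (hF : ContDiffOn ℝ 1 (fun z => F (pr z)) Ω) (hG : ContDiffOn ℝ 1 (fun z => G (pr z)) Ω)
    {z : ℂ} (hz : z ∈ Ω) {x : M} (hx : pr z = x) :
    dot Ω (fun z => φ z + f (pr z)) pr F G x = Ed (fun z => φ z + f (pr z)) pr F G z := by
  have h : ∃ z, z ∈ Ω ∧ pr z = x := ⟨z, hz, hx⟩
  unfold dot
  rw [dif_pos h]
  exact Ed_inv hU f hF hG h.choose_spec.1 hz (h.choose_spec.2.trans hx.symm)

lemma gc_inner (hU : IsUT Ω φ pr q) (hD : D.IsSurf μ) (f : M → ℝ)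
    (hC : Compat D Ω (fun z => φ z + f (pr z)) pr) {F G : M → ℝ}
    (hF : ContDiffOn ℝ 1 (fun z => F (pr z)) Ω) (hG : ContDiffOn ℝ 1 (fun z => G (pr z)) Ω)
    {i : Fin D.N} {x : M} (hx : x ∈ D.U i) :
    inner ℝ (D.gc i F x) (D.gc i G x) = dot Ω (fun z => φ z + f (pr z)) pr F G x := by
  obtain ⟨y0, hy0⟩ : ∃ y, y = D.φ i x := ⟨_, rfl⟩
  have hyT : y0 ∈ D.T i := by rw [hy0]; exact mem_image_of_mem _ hx
  have hTn : D.T i ∈ 𝓝 y0 := (hD.openT i).mem_nhds hyT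
  obtain ⟨b, hb, hb'⟩ := hC i
  obtain ⟨h1, h2, h3, h4⟩ := hb' y0 hyT
  have hpr : pr (b y0) = x := by
    rw [← h2, hy0, hD.left i _ hx]
  rw [dot_eq hU f hF hG h1 hpr]
  have hbd : DifferentiableAt ℂ b y0 := hb.differentiableAt hTn
  have key : ∀ K : M → ℝ, D.dc i K x = fderiv ℝ (fun ζ => K (pr (b ζ))) y0 := by
    intro K
    unfold Data.dc
    rw [← hy0]
    apply Filter.EventuallyEq.fderiv_eq
    filter_upwards [hTn] with ζ hζ
    rw [(hb' ζ hζ).2.1]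
  unfold Data.gc
  rw [← hy0, inner_grd (hD.det i y0 hyT) h4, key F, key G,
    grad_comp (dat hU hF h1) (dat hU hG h1) hbd]
  have hn : ‖deriv b y0‖ ≠ 0 := norm_ne_zero_iff.2 h3
  have he : (((Real.exp (φ (b y0) + f (pr (b y0)))) * ‖deriv b y0‖) ^ 2)⁻¹ * ‖deriv b y0‖ ^ 2 =
      Real.exp (-2 * (φ (b y0) + f (pr (b y0)))) := by
    have h5 : Real.exp (-2 * (φ (b y0) + f (pr (b y0)))) =
        (Real.exp (φ (b y0) + f (pr (b y0))) ^ 2)⁻¹ := by
      rw [← Real.exp_nat_mul, ← Real.exp_neg]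
      congr 1
      push_cast
      ring
    rw [h5, mul_pow, mul_inv, mul_assoc, inv_mul_cancel₀ (pow_ne_zero 2 hn), mul_one]
  rw [← mul_assoc, he]
  rfl

lemma gr_gc (hD : D.IsSurf μ) (x : M) : ∃ i, x ∈ D.U i ∧ ∀ F : M → ℝ, D.gr F x = D.gc i F x := by
  obtain ⟨i, hi, hmin⟩ := (wellFounded_lt : WellFounded ((· < ·) : Fin D.N → Fin D.N → Prop)).has_min
    {i | x ∈ D.U i} (hD.cover x)
  have hi' : x ∈ D.pc i := by
    refine ⟨hi, ?_⟩
    rw [mem_iUnion]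
    rintro ⟨k, hk⟩
    exact hmin k.1 hk k.2
  refine ⟨i, hi, fun F => ?_⟩
  unfold Data.gr
  rw [Finset.sum_eq_single i]
  · exact indicator_of_mem hi' _
  · intro j _ hj
    apply indicator_of_notMem
    rintro ⟨h1, h2⟩
    rcases lt_or_gt_of_ne hj with h | h
    · exact hmin j h1 h
    · exact h2 (mem_iUnion.2 ⟨⟨i, h⟩, hi⟩)
  · intro h
    exact absurd (Finset.mem_univ i) h

lemma gr_inner (hU : IsUT Ω φ pr q) (hD : D.IsSurf μ) (f : M → ℝ)
    (hC : Compat D Ω (fun z => φ z + f (pr z)) pr) {F G : M → ℝ}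
    (hF : ContDiffOn ℝ 1 (fun z => F (pr z)) Ω) (hG : ContDiffOn ℝ 1 (fun z => G (pr z)) Ω)
    (x : M) : inner ℝ (D.gr F x) (D.gr G x) = dot Ω (fun z => φ z + f (pr z)) pr F G x := by
  obtain ⟨i, hi, h⟩ := gr_gc hD x
  rw [h, h, gc_inner hU hD f hC hF hG hi]

lemma gr_sub (hD : D.IsSurf μ) {F G : M → ℝ} (hF : D.C1 F) (hG : D.C1 G) (x : M) :
    D.gr F x - D.gr G x = D.gr (fun y => F y - G y) x := by
  obtain ⟨i, hi, h⟩ := gr_gc hD x
  rw [h, h, h]
  have hyT : D.φ i x ∈ D.T i := mem_image_of_mem _ hi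
  have hTn : D.T i ∈ 𝓝 (D.φ i x) := (hD.openT i).mem_nhds hyT
  have d1 : DifferentiableAt ℝ (fun z => F (D.ψ i z)) (D.φ i x) :=
    ((hF i).contDiffAt hTn).differentiableAt (by norm_num)
  have d2 : DifferentiableAt ℝ (fun z => G (D.ψ i z)) (D.φ i x) :=
    ((hG i).contDiffAt hTn).differentiableAt (by norm_num)
  have h5 : D.dc i (fun y => F y - G y) x = D.dc i F x - D.dc i G x := by
    unfold Data.dc
    exact fderiv_fun_sub d1 d2
  unfold Data.gc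
  rw [h5]
  apply Complex.ext <;> simp [grd]

lemma gr_sq (hU : IsUT Ω φ pr q) (hD : D.IsSurf μ) (f : M → ℝ)
    (hC : Compat D Ω (fun z => φ z + f (pr z)) pr) {F G : M → ℝ}
    (hF : ContDiffOn ℝ 1 (fun z => F (pr z)) Ω) (hG : ContDiffOn ℝ 1 (fun z => G (pr z)) Ω)
    (x : M) : ‖D.gr F x - D.gr G x‖ ^ 2 =
      dot Ω (fun z => φ z + f (pr z)) pr (fun y => F y - G y) (fun y => F y - G y) x := by
  have hFG : ContDiffOn ℝ 1 (fun z => (fun y => F y - G y) (pr z)) Ω := hF.sub hG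
  rw [gr_sub hD (pr_c1 hD hC hF) (pr_c1 hD hC hG), ← gr_inner hU hD f hC hFG hFG,
    real_inner_self_eq_norm_sq]

end

theorem stWk : StWk := by
  intro M P _ _ _ _ _ _ Ω φ pr q f D μ hU hD hC lam u
  constructor
  · rintro ⟨hm, F, h1, h2, h3, h4⟩
    refine ⟨hm, F, fun k => pr_c1 hD hC (h1 k), h2, ?_, ?_⟩
    · refine h3.congr fun p => ?_
      congr 1
      funext x
      exact (gr_sq hU hD f hC (h1 p.1) (h1 p.2) x).symm
    · intro G hG
      have hG' := c1_pr hU hD hC hG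
      refine (h4 G hG').congr fun k => ?_
      congr 1
      funext x
      exact (gr_inner hU hD f hC (h1 k) hG' x).symm
  · rintro ⟨hm, F, h1, h2, h3, h4⟩
    have h1' : ∀ k, ContDiffOn ℝ 1 (fun z => F k (pr z)) Ω := fun k => c1_pr hU hD hC (h1 k)
    refine ⟨hm, F, h1', h2, ?_, ?_⟩
    · refine h3.congr fun p => ?_
      congr 1
      funext x
      exact gr_sq hU hD f hC (h1' p.1) (h1' p.2) x
    · intro G hG
      refine (h4 G (pr_c1 hD hC hG)).congr fun k => ?_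
      congr 1
      funext x
      exact gr_inner hU hD f hC (h1' k) hG x

end Pool.Agent.H327.BR
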